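import Pool.Agent.Helper1.TE.Goals2

/-!
# Project TE: packet FI7 (the invariant in mode 7)
-/

set_option autoImplicit false

namespace Pool.Agent.Helper16.TE

open Pool.Agent.Helper1.TE
open Pool.Agent.Helper65.LinSpace (dig tab nrec ifz eq01 le01 lt01 capPow Ctx)

theorem word_lt (w : List Bool) (i b : ℕ) : word w i b < 2 ^ b := by
  induction b with
  | zero => simp [word]
  | succ b ih =>
    have h : (w.getD (i + b) false).toNat ≤ 1 := Bool.toNat_le _
    rw [word, pow_succ]
    omega

theorem codeB_sub (w : List Bool) (n : ℕ) : codeB w[n]? - 1 = (w.getD n false).toNat := by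
  rw [List.getD_eq_getElem?_getD]
  cases w[n]? with
  | none => rfl
  | some a =>
    change 1 + a.toNat - 1 = a.toNat
    omega

theorem word_succ (w : List Bool) (k i j : ℕ) :
    word (w.drop k) i (j + 1) = 2 * word (w.drop k) i j + (codeB w[k + i + j]? - 1) := by
  rw [word, codeB_sub, List.getD_eq_getElem?_getD, List.getD_eq_getElem?_getD,
    List.getElem?_drop, add_assoc k i j]

theorem toF_C0 (k : Fin 3) : toF C0 k = (0, 0) := by
  fin_cases k <;> rfl

theorem nx_eq (ok : ℕ → ℕ → ℕ) (tst : ℕ → ℕ) (mal : ℕ) (w : List Bool) (h b u W τ g v : ℕ)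
    (C : C3) (γ : ℕ) :
    (machM ok tst mal).nx w (mainS h b u W τ g v C) γ =
      cif (γ * (1 - gqM (mainS h b u W τ g v C)))
        (cif (2 * b - u)
          (cif (3 * b - u)
            (cif (bigT h b W tst τ v C) rejS
              (cif ((τ + 1) / 5 ^ h)
                (mainS h b 0 W (τ + 1) 0 0 (bigC h b W τ g v C))
                accS))
            (mainS h b (u + 1) W τ g
              (2 * v + (codeB w[h + b + 2 + blkM h b W τ g * b + (u - 2 * b)]? - 1)) C))
          (mainS h b (u + 1) W τ (2 * g + γ) v C))
        rejS := rfl

theorem cif_zero {β : Type} {c : ℕ} (h : c = 0) (x y : β) : cif c x y = x := if_pos h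

theorem cif_ne {β : Type} {c : ℕ} (h : c ≠ 0) (x y : β) : cif c x y = y := if_neg h

theorem capPow_eq {q i B : ℕ} (h : q ^ i ≤ B) : capPow q i B = q ^ i := by
  unfold capPow
  omega

theorem gFI7 : GoalFI7 := by
  intro hCHS hALG hPB hCT hEB hEC hED hEE hOK ok tst mal w x γ hγ hI hmo
  cases hI with
  | rej => exact absurd hmo (by decide)
  | m0 h h1 => exact absurd hmo (by change ¬ (0 = 7); decide)
  | m1 h b h1 => exact absurd hmo (by change ¬ (1 = 7); decide)
  | m2 h b u h1 hu h2 => exact absurd hmo (by change ¬ (2 = 7); decide)
  | m3 h b u h1 hu h2 h3 => exact absurd hmo (by change ¬ (3 = 7); decide)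
  | m4 h b h1 h2 h3 => exact absurd hmo (by change ¬ (4 = 7); decide)
  | m5 h b h1 h2 h3 h4 => exact absurd hmo (by change ¬ (5 = 7); decide)
  | m6 h b u h1 hu => exact absurd hmo (by change ¬ (6 = 7); decide)
  | m8 h1 => exact absurd hmo (by decide)
  | m7 h b u τ g v C h1 hτ hu hg hv hC =>
    rw [nx_eq]
    by_cases hc : γ * (1 - gqM (mainS h b u (2 ^ EP h b) τ g v C)) = 0
    · rw [cif_zero hc]
      have hh : 1 ≤ h := h1.1.2.2.1
      have hb : 1 ≤ b := h1.1.2.2.2.1
      obtain ⟨-, -, -, hP0, hPW, -, -, hW2, hW4, -⟩ := hPB h b hh hb
      by_cases hu2 : 2 * b - u = 0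
      · rw [cif_zero hu2]
        by_cases hu3 : 3 * b - u = 0
        · -- a step of the algorithm
          rw [cif_zero hu3]
          have hu' : u = 3 * b := by omega
          subst hu'
          have hg' : g < 2 ^ (2 * b) := by
            rw [min_eq_right (by omega)] at hg
            exact hg
          have hub : 3 * b - 2 * b = b := by omega
          rw [hub] at hv
          have hcp2 : capPow 2 h (2 ^ EP h b) = 2 ^ h := by
            apply capPow_eq
            refine le_trans ?_ hW2
            exact Nat.pow_le_pow_right (by norm_num) (by omega)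
          have hcp4 : capPow 4 b (2 ^ EP h b) = 4 ^ b := capPow_eq hW4
          have hstep := hEE hCT hEB hEC hED tst (leafV h b (w.drop (h + b + 2)))
            (tabV h b (w.drop (h + b + 2))) h b (2 ^ EP h b) τ g v C hP0 hPW hτ hW2
            (by
              intro hk
              rw [hv]
              unfold leafV blkM
              rw [hk, hcp2]
              rfl)
            (by
              intro hk
              rw [hv]
              unfold tabV blkM
              rw [hk, hcp2, hcp4, Nat.div_add_mod]
              rfl)
          by_cases hbT : bigT h b (2 ^ EP h b) tst τ v C = 0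
          · rw [cif_zero hbT]
            exact Inv.rej
          · rw [cif_ne hbT]
            rw [if_neg hbT] at hstep
            have hC' : Ch (opM tst h b w) (2 ^ b) (τ + 1) (toF C0)
                (toF (bigC h b (2 ^ EP h b) τ g v C)) := by
              refine Ch.succ (g / 2 ^ b) (g % 2 ^ b) ?_ (Nat.mod_lt _ (by positivity)) hC hstep
              rw [Nat.div_lt_iff_lt_mul (by positivity), ← pow_add]
              rwa [show b + b = 2 * b by omega]
            by_cases ht : (τ + 1) / 5 ^ h = 0
            · rw [cif_zero ht]
              have ht' : τ + 1 < 5 ^ h := by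
                rcases Nat.div_eq_zero_iff.1 ht with h0 | h0
                · exact absurd h0 (by positivity)
                · exact h0
              refine Inv.m7 h b 0 (τ + 1) 0 0 _ h1 ht' (by omega) (by positivity) ?_ hC'
              rw [Nat.zero_sub]
              rfl
            · rw [cif_ne ht]
              have ht' : τ + 1 = 5 ^ h := by
                have h2 : ¬ (τ + 1 < 5 ^ h) := fun h3 => ht (Nat.div_eq_of_lt h3)
                omega
              refine Inv.m8 (Or.inl ⟨h, b, h1, ?_⟩)
              rw [ht'] at hC'
              have hA := (hALG hCHS (gadM h b (2 ^ EP h b)) (hOK h b hh hb) tst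
                (leafV h b (w.drop (h + b + 2))) (tabV h b (w.drop (h + b + 2)))
                (fun j => word_lt _ _ _) (fun j x y => word_lt _ _ _) h 1 0 0 (toF C0)
                (toF (bigC h b (2 ^ EP h b) τ g v C))
                (by
                  intro k
                  rw [toF_C0]
                  change 0 < (PM h b (2 ^ EP h b)) ^ (mP h b + 2)
                  exact pow_pos hP0 _)).1 hC'
              obtain ⟨z, hz, -⟩ := hA
              intro h0
              change (if (0 : ℕ) = 0 then (if tst (rootValue h b (w.drop (h + b + 2))) = 0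
                then none else some (toF C0 0)) else _) = some z at hz
              rw [if_pos rfl, if_pos h0] at hz
              exact absurd hz (by simp)
        · -- reading a letter
          rw [cif_ne hu3]
          refine Inv.m7 h b (u + 1) τ g _ C h1 hτ (by omega) ?_ ?_ hC
          · rw [min_eq_right (by omega)] at hg ⊢
            exact hg
          · rw [show u + 1 - 2 * b = (u - 2 * b) + 1 by omega, word_succ, ← hv]
      · -- guessing a bit
        rw [cif_ne hu2]
        refine Inv.m7 h b (u + 1) τ (2 * g + γ) v C h1 hτ (by omega) ?_ ?_ hC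
        · rw [min_eq_left (by omega)] at hg ⊢
          rw [pow_succ]
          omega
        · rw [show u + 1 - 2 * b = 0 by omega]
          rw [show u - 2 * b = 0 by omega] at hv
          rw [hv]
          rfl
    · rw [cif_ne hc]
      exact Inv.rej

end Pool.Agent.Helper16.TE
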