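import Pool.Agent.Helper1.TE.Goals3
import Pool.Agent.Helper9.LinSpace.Compile

/-!
# Project TE: packet XBODY (one step of a numeric machine as a counter program)
-/

set_option autoImplicit false

namespace Pool.Agent.Helper16.TE

open Pool.Agent.Helper1.TE
open Pool.Agent.Helper65.LinSpace (Dir inputSym inputMove Prog Run cons Ctx LS E2)
open Pool.Agent.Helper9.LinSpace (growth run_addTo run_clear)

/-! ### Counter programs -/

/-- several functions, computed into the registers `j, …, j + k - 1` -/
theorem run_multi (F : ℕ → (ℕ → ℕ) → ℕ) (k : ℕ) (hF : ∀ i < k, E2 (F i)) :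
    ∃ c : ℕ, ∀ (ρ : ℕ → ℕ) (j : ℕ), (∀ i, ρ i < j) → ∃ P : Prog,
      ∀ (s : ℕ → ℕ) (B m : ℕ), (∀ i, j ≤ i → s i = 0) → (∀ i, s (ρ i) ≤ m) → (m + 2) ^ c ≤ B →
        Run B P s (fun x => if j ≤ x ∧ x < j + k then F (x - j) (fun i => s (ρ i)) else s x) := by
  induction k with
  | zero =>
    refine ⟨0, fun ρ j hρ => ⟨.skip, fun s B m h0 hm hB => ?_⟩⟩
    have h : (fun x => if j ≤ x ∧ x < j + 0 then F (x - j) (fun i => s (ρ i)) else s x) = s := by
      funext x
      rw [if_neg (by omega)]
    rw [h]
    exact Run.skip s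
  | succ k ih =>
    obtain ⟨c, hc⟩ := ih fun i hi => hF i (by omega)
    obtain ⟨d, hd⟩ := Pool.Agent.Helper9.LinSpace.E2.prog (hF k (by omega))
    refine ⟨c + d, fun ρ j hρ => ?_⟩
    obtain ⟨P, hP⟩ := hc ρ j hρ
    obtain ⟨Q, hQ⟩ := hd ρ (j + k) (fun i => (hρ i).trans_le (by omega))
    refine ⟨.seq P Q, fun s B m h0 hm hB => ?_⟩
    have r1 := hP s B m h0 hm ((Nat.pow_le_pow_right (by omega) (by omega)).trans hB)
    refine Run.seq r1 ?_
    have hs : ∀ i, (fun x => if j ≤ x ∧ x < j + k then F (x - j) (fun i => s (ρ i)) else s x)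
        (ρ i) = s (ρ i) := by
      intro i
      have h2 := hρ i
      change (if j ≤ ρ i ∧ ρ i < j + k then F (ρ i - j) (fun i => s (ρ i)) else s (ρ i)) = s (ρ i)
      rw [if_neg (by omega)]
    have r2 := hQ (fun x => if j ≤ x ∧ x < j + k then F (x - j) (fun i => s (ρ i))
      else s x) B m ?_ ?_ ((Nat.pow_le_pow_right (by omega) (by omega)).trans hB)
    · have e1 : (fun i => (fun x => if j ≤ x ∧ x < j + k then F (x - j) (fun i => s (ρ i))
          else s x) (ρ i)) = fun i => s (ρ i) := funext hs
      rw [e1] at r2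
      have e2 : Function.update (fun x => if j ≤ x ∧ x < j + k then F (x - j) (fun i => s (ρ i))
          else s x) (j + k) (F k (fun i => s (ρ i))) =
          fun x => if j ≤ x ∧ x < j + (k + 1) then F (x - j) (fun i => s (ρ i)) else s x := by
        funext x
        by_cases hx : x = j + k
        · subst hx
          rw [Function.update_self, if_pos (by omega)]
          congr 1
          omega
        · rw [Function.update_of_ne hx]
          by_cases h3 : j ≤ x ∧ x < j + k
          · rw [if_pos h3, if_pos (by omega)]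
          · rw [if_neg h3, if_neg (by omega)]
      rw [e2] at r2
      exact r2
    · intro i hi
      change (if j ≤ i ∧ i < j + k then F (i - j) (fun i => s (ρ i)) else s i) = 0
      rw [if_neg (by omega)]
      exact h0 i (by omega)
    · intro i
      exact (hs i).le.trans (hm i)

/-- clear the first `k` registers -/
theorem run_clr (k : ℕ) : ∃ P : Prog, ∀ (B : ℕ) (s : ℕ → ℕ),
    Run B P s (fun x => if x < k then 0 else s x) := by
  induction k with
  | zero =>
    refine ⟨.skip, fun B s => ?_⟩
    have h : (fun x => if x < 0 then 0 else s x) = s := by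
      funext x
      rw [if_neg (by omega)]
    rw [h]
    exact Run.skip s
  | succ k ih =>
    obtain ⟨P, hP⟩ := ih
    refine ⟨.seq P (.loop k .skip), fun B s => Run.seq (hP B s) ?_⟩
    have r2 := run_clear (B := B) (i := k) (fun x => if x < k then 0 else s x)
    have e : Function.update (fun x => if x < k then 0 else s x) k 0 =
        fun x => if x < k + 1 then 0 else s x := by
      funext x
      by_cases hx : x = k
      · subst hx
        rw [Function.update_self, if_pos (by omega)]
      · rw [Function.update_of_ne hx]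
        by_cases h3 : x < k
        · rw [if_pos h3, if_pos (by omega)]
        · rw [if_neg h3, if_neg (by omega)]
    rw [e] at r2
    exact r2

/-- move the registers `j, …, j + k - 1` to `0, …, k - 1` -/
theorem run_move (j k : ℕ) (hk : k ≤ j) : ∃ P : Prog, ∀ (B : ℕ) (s : ℕ → ℕ),
    (∀ x < k, s x = 0) → (∀ x < k, s (j + x) ≤ B) →
    Run B P s (fun x => if x < k then s (j + x) else if j ≤ x ∧ x < j + k then 0 else s x) := by
  induction k with
  | zero =>
    refine ⟨.skip, fun B s _ _ => ?_⟩
    have h : (fun x => if x < 0 then s (j + x) else if j ≤ x ∧ x < j + 0 then 0 else s x) = s := by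
      funext x
      rw [if_neg (by omega), if_neg (by omega)]
    rw [h]
    exact Run.skip s
  | succ k ih =>
    obtain ⟨P, hP⟩ := ih (by omega)
    refine ⟨.seq P (.loop (j + k) (.inc k)), fun B s h0 hB => ?_⟩
    refine Run.seq (hP B s (fun x hx => h0 x (by omega)) (fun x hx => hB x (by omega))) ?_
    have r2 := run_addTo (B := B) (i := j + k) (a := k) (by omega)
      (fun x => if x < k then s (j + x) else if j ≤ x ∧ x < j + k then 0 else s x) (by
        rw [if_neg (by omega), if_neg (by omega), if_neg (by omega), if_neg (by omega),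
          h0 k (by omega), zero_add]
        exact hB k (by omega))
    have e : Function.update (Function.update
        (fun x => if x < k then s (j + x) else if j ≤ x ∧ x < j + k then 0 else s x) (j + k) 0) k
        ((fun x => if x < k then s (j + x) else if j ≤ x ∧ x < j + k then 0 else s x) k +
          (fun x => if x < k then s (j + x) else if j ≤ x ∧ x < j + k then 0 else s x) (j + k)) =
        fun x => if x < k + 1 then s (j + x) else if j ≤ x ∧ x < j + (k + 1) then 0 else s x := by
      funext x
      by_cases hx : x = k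
      · subst hx
        rw [Function.update_self]
        change (if x < x then s (j + x) else if j ≤ x ∧ x < j + x then 0 else s x) +
          (if j + x < x then s (j + (j + x)) else if j ≤ j + x ∧ j + x < j + x then 0
            else s (j + x)) = _
        rw [if_neg (by omega), if_neg (by omega), if_neg (by omega), if_neg (by omega),
          if_pos (by omega), h0 x (by omega), zero_add]
      · rw [Function.update_of_ne hx]
        by_cases hx2 : x = j + k
        · subst hx2
          rw [Function.update_self, if_neg (by omega), if_pos (by omega)]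
        · rw [Function.update_of_ne hx2]
          by_cases h3 : x < k
          · rw [if_pos h3, if_pos (by omega)]
          · rw [if_neg h3, if_neg (show ¬ x < k + 1 by omega)]
            by_cases h4 : j ≤ x ∧ x < j + k
            · rw [if_pos h4, if_pos (show j ≤ x ∧ x < j + (k + 1) by omega)]
            · rw [if_neg h4, if_neg (show ¬ (j ≤ x ∧ x < j + (k + 1)) by omega)]
    rw [e] at r2
    exact r2

/-- a common bound for the growth of several functions -/
theorem growth_multi (F : ℕ → (ℕ → ℕ) → ℕ) (k : ℕ) (hF : ∀ i < k, E2 (F i)) :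
    ∃ g : ℕ, ∀ i < k, ∀ (e : ℕ → ℕ) (m : ℕ), (∀ i, e i ≤ m) → F i e ≤ (m + 2) ^ g := by
  induction k with
  | zero => exact ⟨0, fun i hi => absurd hi (by omega)⟩
  | succ k ih =>
    obtain ⟨g, hg⟩ := ih fun i hi => hF i (by omega)
    obtain ⟨g', hg'⟩ := growth (hF k (by omega))
    refine ⟨g + g', fun i hi e m hm => ?_⟩
    by_cases h : i = k
    · subst h
      exact (hg' e m hm).trans (Nat.pow_le_pow_right (by omega) (by omega))
    · exact (hg i (by omega) e m hm).trans (Nat.pow_le_pow_right (by omega) (by omega))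

/-! ### The input head -/

theorem inputSym_ne {w : List Bool} {n : ℕ} (h : n < w.length) :
    inputSym w (n + 1) ≠ none := by
  unfold inputSym
  rw [if_neg (by omega), Nat.add_sub_cancel]
  intro h2
  rw [List.getElem?_eq_none_iff] at h2
  omega

theorem xrun_whl (w : List Bool) (B : ℕ) (s : ℕ → ℕ) : ∀ n : ℕ, n ≤ w.length →
    XRun w B (.whl (.mv .left)) (s, n) (s, 0) := by
  intro n
  induction n with
  | zero =>
    intro _
    exact XRun.whl_stop (by simp [inputSym])
  | succ n ih =>
    intro hn
    refine XRun.whl_go (inputSym_ne (by omega)) (XRun.mv .left s (n + 1)) ?_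
    have h : inputMove w .left (n + 1) = n := rfl
    rw [h]
    exact ih (by omega)

theorem xrun_loop (w : List Bool) (B j : ℕ) : ∀ (k : ℕ) (s : ℕ → ℕ) (n : ℕ), s j = k →
    XRun w B (.loop j (.mv .right)) (s, min n (w.length + 1))
      (Function.update s j 0, min (n + k) (w.length + 1)) := by
  intro k
  induction k with
  | zero =>
    intro s n hs
    have h : Function.update s j 0 = s := by
      rw [← hs]
      exact Function.update_eq_self _ _
    rw [h]
    exact XRun.loop_zero hs
  | succ k ih =>
    intro s n hs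
    refine XRun.loop_succ (by omega) (XRun.mv .right _ _) ?_
    have h : inputMove w .right (min n (w.length + 1)) = min (n + 1) (w.length + 1) := by
      change min (min n (w.length + 1) + 1) (w.length + 1) = _
      omega
    rw [h, hs, Nat.add_sub_cancel]
    have h2 := ih (Function.update s j k) (n + 1) (Function.update_self _ _ _)
    rw [Function.update_idem] at h2
    rw [show n + 1 + k = n + (k + 1) by omega] at h2
    exact h2

theorem xrun_letter (w : List Bool) (B r : ℕ) (s : ℕ → ℕ) (p n : ℕ) (hB : 2 ≤ B) (hs : s r = 0)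
    (hn : n = min (p + 1) (w.length + 1)) :
    XRun w B (.rd .skip (.inc r) (.seq (.inc r) (.inc r))) (s, n)
      (Function.update s r (codeB w[p]?), n) := by
  have hsym : inputSym w n = w[p]? := by
    unfold inputSym
    rw [if_neg (by omega)]
    by_cases hp : p < w.length
    · rw [show n - 1 = p by omega]
    · rw [List.getElem?_eq_none (by omega), List.getElem?_eq_none (by omega)]
  refine XRun.rd ?_
  rw [hsym]
  cases hw : w[p]? with
  | none =>
    have h : Function.update s r (codeB none) = s := by
      rw [show codeB none = s r from hs.symm]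
      exact Function.update_eq_self _ _
    rw [h]
    exact XRun.skip (s, n)
  | some b =>
    cases b with
    | false =>
      have h := XRun.inc (w := w) (B := B) r s n (by omega)
      rw [hs] at h
      exact h
    | true =>
      have h := XRun.inc (w := w) (B := B) r s n (by omega)
      have h2 := XRun.inc (w := w) (B := B) r (Function.update s r (s r + 1)) n
        (by rw [Function.update_self]; omega)
      rw [Function.update_self, Function.update_idem, hs] at h2
      rw [hs] at h
      exact XRun.seq h h2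

/-! ### The body -/

theorem enc_pair {α : Type} [Ctx α] (a : α) (y γ i : ℕ) :
    Ctx.enc ((a, y, γ) : α × ℕ × ℕ) i =
      if i < Ctx.ar α then Ctx.enc a i else if i = Ctx.ar α then y
        else if i = Ctx.ar α + 1 then γ else 0 := by
  change (if i < Ctx.ar α then Ctx.enc a i else
    (if i - Ctx.ar α < 1 then cons y (fun _ => 0) (i - Ctx.ar α)
      else cons γ (fun _ => 0) (i - Ctx.ar α - 1))) = _
  by_cases h : i < Ctx.ar α
  · rw [if_pos h, if_pos h]
  · rw [if_neg h, if_neg h]
    by_cases h2 : i = Ctx.ar α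
    · subst h2
      rw [if_pos (by omega), if_pos rfl, Nat.sub_self]
      rfl
    · rw [if_neg (by omega), if_neg h2]
      by_cases h3 : i = Ctx.ar α + 1
      · subst h3
        rw [if_pos rfl, show Ctx.ar α + 1 - Ctx.ar α - 1 = 0 by omega]
        rfl
      · rw [if_neg h3]
        obtain ⟨u, hu⟩ : ∃ u, i - Ctx.ar α - 1 = u + 1 := ⟨i - Ctx.ar α - 2, by omega⟩
        rw [hu]
        rfl

theorem four_le (m : ℕ) : m + 4 ≤ (m + 2) ^ 2 := by nlinarith [Nat.zero_le m]

theorem codeB_le (o : Option Bool) : codeB o ≤ 2 := by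
  rcases o with _ | _ | _
  · exact Nat.zero_le _
  · change 1 + 0 ≤ 2
    omega
  · change 1 + 1 ≤ 2
    omega

theorem gXBODY : GoalXBODY := by
  intro hXPR α _ N hA hN hacc hacc1
  obtain ⟨FA, hFA, hFA'⟩ := (LS.nat_iff).1 hA
  obtain ⟨FC, hFC, hFC'⟩ := (LS.nat_iff).1 hacc
  choose! F hF hF' using hN
  set r := Ctx.ar α with hr
  obtain ⟨cA, hcA⟩ := Pool.Agent.Helper9.LinSpace.E2.prog hFA
  obtain ⟨PA, hPA⟩ := hcA (fun i => if i < r then i else r + 2) (r + 3) (fun i => by
    split_ifs <;> omega)
  obtain ⟨cQ, hcQ⟩ := run_multi F r hF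
  obtain ⟨PQ, hPQ⟩ := hcQ (fun i => if i < r + 2 then i else r + 2) (r + 3) (fun i => by
    split_ifs <;> omega)
  obtain ⟨cC, hcC⟩ := Pool.Agent.Helper9.LinSpace.E2.prog hFC
  obtain ⟨PC, hPC⟩ := hcC (fun i => if i < r then r + 3 + i else r + 2) (r + 3 + r) (fun i => by
    split_ifs <;> omega)
  obtain ⟨g, hg⟩ := growth_multi F r hF
  obtain ⟨PK, hPK⟩ := run_clr (r + 2)
  obtain ⟨PM, hPM⟩ := run_move (r + 3) r (by omega)
  refine ⟨fun γ => .seq (if γ = 0 then .skip else .inc (r + 1)) (.seq (XP.ofProg PA)
    (.seq (.mv .left) (.seq (.whl (.mv .left)) (.seq (.loop (r + 3) (.mv .right))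
    (.seq (.mv .right) (.seq (.rd .skip (.inc r) (.seq (.inc r) (.inc r)))
    (XP.ofProg (.seq PQ (.seq PC (.seq PK PM)))))))))), r + 3 + r,
    cA + 1 + 2 * cQ + 2 * g + 2 * ((g + 1) * cC), by omega, ?_⟩
  intro w a γ m B n hγ hn hm hB
  have hpow : ∀ {c : ℕ}, c ≤ cA + 1 + 2 * cQ + 2 * g + 2 * ((g + 1) * cC) → (m + 2) ^ c ≤ B :=
    fun h => (Nat.pow_le_pow_right (by omega) h).trans hB
  have hpow4 : ∀ {c : ℕ}, 2 * c ≤ cA + 1 + 2 * cQ + 2 * g + 2 * ((g + 1) * cC) →
      (m + 4) ^ c ≤ B := fun {c} h => by
    calc (m + 4) ^ c ≤ ((m + 2) ^ 2) ^ c := Nat.pow_le_pow_left (four_le m) c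
      _ = (m + 2) ^ (2 * c) := (pow_mul _ _ _).symm
      _ ≤ B := hpow h
  have hB2 : 2 ≤ B := by
    have h1 : (m + 2) ^ 1 ≤ B := hpow (by omega)
    rw [pow_one] at h1
    omega
  have henc0 : ∀ i, r ≤ i → Ctx.enc a i = 0 := fun i hi => Ctx.enc_of_le a hi
  set y := codeB w[N.addr a]? with hy
  have hy2 : y ≤ 2 := codeB_le _
  set a' := N.nx w a γ with ha'
  have ha'' : a' = N.next a y γ := rfl
  -- the states
  set s1 : ℕ → ℕ := Function.update (Ctx.enc a) (r + 1) γ with hs1
  have s1_lt : ∀ i, i < r → s1 i = Ctx.enc a i := fun i hi =>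
    Function.update_of_ne (by omega) _ _
  have s1_g : s1 (r + 1) = γ := Function.update_self _ _ _
  have s1_0 : ∀ i, r ≤ i → i ≠ r + 1 → s1 i = 0 := fun i hi hi2 => by
    rw [hs1, Function.update_of_ne hi2]
    exact henc0 i hi
  have q1 : XRun w B (if γ = 0 then .skip else .inc (r + 1)) (Ctx.enc a, n) (s1, n) := by
    by_cases h0 : γ = 0
    · rw [if_pos h0]
      have e : s1 = Ctx.enc a := by
        rw [hs1, h0, ← henc0 (r + 1) (by omega)]
        exact Function.update_eq_self _ _
      rw [e]
      exact XRun.skip _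
    · rw [if_neg h0]
      have h1 : γ = 1 := by omega
      have h2 := XRun.inc (w := w) (B := B) (r + 1) (Ctx.enc a) n (by
        rw [henc0 (r + 1) (by omega)]
        omega)
      rw [henc0 (r + 1) (by omega), zero_add] at h2
      rw [hs1, h1]
      exact h2
  -- the address
  have q2 : XRun w B (XP.ofProg PA) (s1, n) (Function.update s1 (r + 3) (N.addr a), n) := by
    apply hXPR
    have h := hPA s1 B m (fun i hi => s1_0 i (by omega) (by omega)) (fun i => by
      by_cases hi : i < r
      · rw [if_pos hi, s1_lt i hi]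
        exact hm i
      · rw [if_neg hi, s1_0 (r + 2) (by omega) (by omega)]
        exact Nat.zero_le m) (hpow (by omega))
    have e : (fun i => s1 (if i < r then i else r + 2)) = Ctx.enc a := by
      funext i
      by_cases hi : i < r
      · rw [if_pos hi, s1_lt i hi]
      · rw [if_neg hi, s1_0 (r + 2) (by omega) (by omega), henc0 i (by omega)]
    rw [e, hFA'] at h
    exact h
  -- the head
  have q3 : XRun w B (.mv .left) (Function.update s1 (r + 3) (N.addr a), n)
      (Function.update s1 (r + 3) (N.addr a), n - 1) := XRun.mv .left _ _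
  have q4 := xrun_whl w B (Function.update s1 (r + 3) (N.addr a)) (n - 1) (by omega)
  have q5 := xrun_loop w B (r + 3) (N.addr a) (Function.update s1 (r + 3) (N.addr a)) 0
    (Function.update_self _ _ _)
  rw [Function.update_idem, Nat.zero_min, zero_add] at q5
  have e5 : Function.update s1 (r + 3) 0 = s1 := by
    rw [← s1_0 (r + 3) (by omega) (by omega)]
    exact Function.update_eq_self _ _
  rw [e5] at q5
  have q6 : XRun w B (.mv .right) (s1, min (N.addr a) (w.length + 1))
      (s1, min (N.addr a + 1) (w.length + 1)) := by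
    have h := XRun.mv (w := w) (B := B) .right s1 (min (N.addr a) (w.length + 1))
    have h2 : inputMove w .right (min (N.addr a) (w.length + 1)) =
        min (N.addr a + 1) (w.length + 1) := by
      change min (min (N.addr a) (w.length + 1) + 1) (w.length + 1) = _
      omega
    rw [h2] at h
    exact h
  have q7 := xrun_letter w B r s1 (N.addr a) _ hB2 (s1_0 r le_rfl (by omega)) rfl
  rw [← hy] at q7
  -- the functions
  set s3 : ℕ → ℕ := Function.update s1 r y with hs3
  set e : ℕ → ℕ := Ctx.enc ((a, y, γ) : α × ℕ × ℕ) with he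
  have s3_e : ∀ i, s3 (if i < r + 2 then i else r + 2) = e i := by
    intro i
    rw [he, enc_pair, ← hr]
    by_cases h1 : i < r
    · rw [if_pos (by omega), if_pos h1, hs3, Function.update_of_ne (by omega), s1_lt i h1]
    · by_cases h2 : i = r
      · rw [if_pos (by omega), if_neg h1, if_pos h2, h2, hs3, Function.update_self]
      · by_cases h3 : i = r + 1
        · rw [if_pos (by omega), if_neg h1, if_neg h2, if_pos h3, h3, hs3,
            Function.update_of_ne (by omega), s1_g]
        · rw [if_neg (by omega), if_neg h1, if_neg h2, if_neg h3, hs3,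
            Function.update_of_ne (by omega), s1_0 (r + 2) (by omega) (by omega)]
  have s3_0 : ∀ i, r + 2 ≤ i → s3 i = 0 := fun i hi => by
    rw [hs3, Function.update_of_ne (by omega)]
    exact s1_0 i (by omega) (by omega)
  have he_le : ∀ i, e i ≤ m + 2 := by
    intro i
    rw [he, enc_pair]
    split_ifs
    · exact (hm i).trans (by omega)
    · omega
    · omega
    · omega
  have hFe : ∀ i < r, F i e = Ctx.enc a' i := fun i hi => hF' i hi (a, y, γ)
  have hge : ∀ i < r, Ctx.enc a' i ≤ (m + 4) ^ g := fun i hi => by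
    rw [← hFe i hi]
    exact hg i hi e (m + 2) he_le
  have q8 := hPQ s3 B (m + 2) (fun i hi => s3_0 i (by omega)) (fun i => by
    rw [s3_e i]
    exact he_le i) (hpow4 (by omega))
  rw [show (fun i => s3 (if i < r + 2 then i else r + 2)) = e from funext s3_e] at q8
  set s4 : ℕ → ℕ := fun x => if r + 3 ≤ x ∧ x < r + 3 + r then F (x - (r + 3)) e else s3 x with hs4
  have s4_in : ∀ i < r, s4 (r + 3 + i) = Ctx.enc a' i := fun i hi => by
    rw [hs4]
    change (if r + 3 ≤ r + 3 + i ∧ r + 3 + i < r + 3 + r then F (r + 3 + i - (r + 3)) e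
      else s3 (r + 3 + i)) = _
    rw [if_pos (by omega), Nat.add_sub_cancel_left, hFe i hi]
  have s4_out : ∀ i, r + 2 ≤ i → ¬ (r + 3 ≤ i ∧ i < r + 3 + r) → s4 i = 0 := fun i hi h => by
    rw [hs4]
    change (if r + 3 ≤ i ∧ i < r + 3 + r then F (i - (r + 3)) e else s3 i) = 0
    rw [if_neg h]
    exact s3_0 i hi
  have henc0' : ∀ i, r ≤ i → Ctx.enc a' i = 0 := fun i hi => Ctx.enc_of_le a' hi
  have q9 := hPC s4 B ((m + 4) ^ g) (fun i hi => s4_out i (by omega) (by omega)) (fun i => by
    by_cases hi : i < r
    · rw [if_pos hi, s4_in i hi]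
      exact hge i hi
    · rw [if_neg hi, s4_out (r + 2) (by omega) (by omega)]
      exact Nat.zero_le _) (by
    have h1 : (m + 4) ^ g + 2 ≤ (m + 4) ^ (g + 1) := by
      have h2 : 1 ≤ (m + 4) ^ g := Nat.one_le_pow _ _ (by omega)
      rw [pow_succ]
      nlinarith [Nat.zero_le m]
    calc ((m + 4) ^ g + 2) ^ cC ≤ ((m + 4) ^ (g + 1)) ^ cC := Nat.pow_le_pow_left h1 cC
      _ = (m + 4) ^ ((g + 1) * cC) := (pow_mul _ _ _).symm
      _ ≤ B := hpow4 (by omega))
  rw [show (fun i => s4 (if i < r then r + 3 + i else r + 2)) = Ctx.enc a' from by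
    funext i
    by_cases hi : i < r
    · rw [if_pos hi, s4_in i hi]
    · rw [if_neg hi, s4_out (r + 2) (by omega) (by omega), henc0' i (by omega)], hFC'] at q9
  set s5 : ℕ → ℕ := Function.update s4 (r + 3 + r) (N.acc a') with hs5
  have q10 := hPK B s5
  set s6 : ℕ → ℕ := fun x => if x < r + 2 then 0 else s5 x with hs6
  have s6_lt : ∀ x, x < r + 2 → s6 x = 0 := fun x hx => if_pos hx
  have s6_ge : ∀ x, ¬ x < r + 2 → s6 x = s5 x := fun x hx => if_neg hx
  have s6_in : ∀ i < r, s6 (r + 3 + i) = Ctx.enc a' i := fun i hi => by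
    rw [s6_ge _ (by omega), hs5, Function.update_of_ne (by omega), s4_in i hi]
  have q11 := hPM B s6 (fun x hx => s6_lt x (by omega)) (fun x hx => by
    rw [s6_in x hx]
    exact (hge x hx).trans (hpow4 (by omega)))
  have e11 : (fun x => if x < r then s6 (r + 3 + x) else if r + 3 ≤ x ∧ x < r + 3 + r then 0
      else s6 x) = Function.update (Ctx.enc a') (r + 3 + r) (N.acc a') := by
    funext x
    by_cases h1 : x < r
    · rw [if_pos h1, s6_in x h1, Function.update_of_ne (by omega)]
    · rw [if_neg h1]
      by_cases h2 : x = r + 3 + r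
      · rw [if_neg (by omega), h2, Function.update_self, s6_ge _ (by omega), hs5,
          Function.update_self]
      · rw [Function.update_of_ne h2, henc0' x (by omega)]
        by_cases h3 : r + 3 ≤ x ∧ x < r + 3 + r
        · rw [if_pos h3]
        · rw [if_neg h3]
          by_cases h4 : x < r + 2
          · exact s6_lt x h4
          · rw [s6_ge x h4, hs5, Function.update_of_ne h2]
            exact s4_out x (by omega) h3
  rw [e11] at q11
  have q12 := hXPR w B _ _ _ (min (N.addr a + 1) (w.length + 1))
    (Run.seq q8 (Run.seq q9 (Run.seq q10 q11)))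
  exact ⟨min (N.addr a + 1) (w.length + 1), min_le_right _ _,
    XRun.seq q1 (XRun.seq q2 (XRun.seq q3 (XRun.seq q4 (XRun.seq q5 (XRun.seq q6
      (XRun.seq q7 q12))))))⟩

end Pool.Agent.Helper16.TE
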